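import Pool.Agent.Q193.LT.Sums
import Pool.Agent.Q193.LT.Per

/-!
# Periods, Mumford-Tate groups and tripartite hypergraphs

Let `K ⊂ ℂ` be a field that is algebraic over `ℚ`, and let `M` be the category of André motives over `K`,
a semisimple abelian category with Tate twists `N ↦ N(a)`. For a separated scheme `X` of finite type over
`ℚ` let `D.H i X` be the object of `M` given by the graded object of the weight filtration of the
cohomology with compact supports `H^i_c(X_K)`; for smooth projective `X` it is the motive `h^i(X_K)`.

`P` consists of the de Rham realization, the Betti realization, the comparison isomorphism and, for each
motive `N`, the dimension of the motivic Galois group of `N`; `mt N` is the dimension of the Mumford-Tate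
group of the Betti realization of `N`, which is a subgroup of the motivic Galois group. `GPCMT P mt N`
is the conjecture of question Q1 for `N` together with the property that Hodge classes are motivated up
to dimension: the transcendence degree of the field of periods of `N` is the dimension of the
Mumford-Tate group, and both are equal to the dimension of the motivic Galois group.

Every smooth projective variety over `K` is a union of connected components of `Y_K` for a smooth
projective variety `Y` over `ℚ`. So every André motive over `K` is a direct factor of a finite direct sum
of Tate twists of motives `h^i(Y_K)`, and the property `GPCMT P mt` is true for all André motives over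
`K` if and only if `SumsHave D (OfProjAll D) (GPCMT P mt)` is true (it is inherited by direct factors).

For a finite set `H` of triples `(i, j, l)` (a tripartite hypergraph) let `X_H` be the smooth affine
cubic hypersurface `∑_{(i, j, l) ∈ H} x_i y_j z_l = 1` over `ℚ`.

**Theorem.** The equalities `trdeg K(c_N) = dim MT(N) = dim G_mot(N)` are true for all André motives `N`
over `K` if and only if they are true for all finite direct sums of Tate motives and of Tate twists of
motives `Gr^W H^i_c((X_H)_K)`, where the `H` are finite sets of triples.
-/

set_option autoImplicit false

open CategoryTheory CategoryTheory.Limits AlgebraicGeometry Pool.Agent.Y116.UV Pool.Agent.Z125.UN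
  Pool.Agent.Q193.LT

universe v u

namespace Pool.Agent.Results.MP_57341d_ag.HypergraphMotives

/-- **Periods, Mumford-Tate groups and tripartite hypergraphs.** See the explanations above. -/
theorem result {K : Type} [Field K] [CharZero K] [Algebra.IsAlgebraic ℚ K] [Algebra K ℂ]
    {M : Type u} [Category.{v} M] [Abelian M] {D : CompactData ℚ M} (h : IsMotives D)
    {P : PeriodData K M} {mt : M → ℕ} (hP : IsPeriodMT P mt) :
    SumsHave D (OfProjAll D) (GPCMT P mt) ↔ SumsHave D (OfGraphs D) (GPCMT P mt) :=
  sums_graph_iff h.compact h.generated h.semisimple (GPCMT.factor hP) frac_rat

end Pool.Agent.Results.MP_57341d_ag.HypergraphMotives
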