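import Pool.Agent.Q311.MV.Dim
import Pool.Agent.H340R2.LW

/-!
# The transcendence degree of the periods is at least the dimension of the monodromy group plus one, in bounded degree
# and height, at almost all algebraic points of the base, for arbitrary families over bases of any dimension

Let `Y j`, `j` in a finite set `κ`, be the period matrices of arbitrary families of smooth projective varieties over a
connected open subset `U` of the affine space with coordinates indexed by the finite set `X` (rows: algebraic de Rham
side, columns: Betti side, so that analytic continuation multiplies `Y` by elements `g` of the monodromy group on the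
right). Let `r` be the dimension of the Zariski closure of the monodromy group. Then some `r` of the entries of the
matrices, and these entries together with `2 π i`, have no relation of bounded degree and height at almost all points
over all number fields of bounded degree, where the bounds tend to infinity; for the entries alone the coefficients of
the relations may involve arbitrary complex constants `ξ` (for instance the monomials in the periods of a given motive).

Grothendieck's conjecture says that the transcendence degree of the field of periods of the fibre is the dimension of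
its Mumford-Tate group. The algebraic monodromy group is a normal subgroup of the derived group of the generic
Mumford-Tate group (André), and it is equal to it in all cases of big monodromy; then the generic Mumford-Tate group has
dimension `r + 1` if its centre consists of the scalars, and the theorem gives the conjecture for almost all fibres up to
any given degree and height. There is no condition on the type of the monodromy group: symplectic, orthogonal, special
linear (unitary), exceptional, or products of such groups.
-/

set_option autoImplicit false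

open Filter NumberField Pool.Agent.Q311.MV
open Pool.Agent.Y119.PLM (MT Ix IsMon)
open Pool.Agent.Y890.MV (InnerM)

namespace Pool.Agent.Results.MP_57341d_ag.MonodromyDimension

/-- the number `2 π i` -/
noncomputable def tpi : ℂ := 2 * Real.pi * Complex.I

/-- the polynomial in the `y i`, of degree at most `k` in each of them, with the coefficients `∑ a, c l a * ξ a` -/
noncomputable def value {r k : ℕ} (c : (Fin r → Fin (k + 1)) → Fin k → ℂ) (ξ : Fin k → ℂ) (y : Fin r → ℂ) : ℂ :=
  ∑ l : Fin r → Fin (k + 1), (∑ a, c l a * ξ a) * ∏ i, y i ^ (l i : ℕ)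

/-- There is no nontrivial relation of degree at most `k` in each `y i` with coefficients of the form `∑ a, c l a * ξ a`,
and none with coefficients of the form `∑ a, c l a * (2 π i) ^ a` (that is between the `y i` and `2 π i`), where the `c l a`
are integers of `K` with all conjugates at most `T ^ k`. -/
def Independent {r : ℕ} (k : ℕ) (K : Type) [Field K] [NumberField K] (io : K →+* ℂ) (ξ : Fin k → ℂ) (T : ℝ)
    (y : Fin r → ℂ) : Prop :=
  ∀ c : (Fin r → Fin (k + 1)) → Fin k → 𝓞 K, (∀ l a (φ : K →+* ℂ), ‖φ (c l a : K)‖ ≤ T ^ k) →
    (value (fun l a => io (c l a : K)) ξ y = 0 → ∀ l, ∑ a, io (c l a : K) * ξ a = 0) ∧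
    (value (fun l a => io (c l a : K)) (fun a => tpi ^ (a : ℕ)) y = 0 → ∀ l a, c l a = 0)

/-- the points with coordinates in `K` of height at most `T`, of norm at most `k` and at distance at least `1 / k` from the
complement of `U`, at which the entries `σ` of the matrices `Y` are not independent -/
def Exceptional {X κ : Type} [Fintype X] {n : κ → ℕ} (U : Set (X → ℂ)) (Y : (X → ℂ) → MT n) {r : ℕ} (σ : Fin r → Ix n)
    (k : ℕ) (K : Type) [Field K] [NumberField K] (io : K →+* ℂ) (ξ : Fin k → ℂ) (T : ℝ) : Set (X → K) :=
  {s | (∀ j, Y120.HtLe K T (s j)) ∧ (fun j => io (s j)) ∈ InnerM U k ∧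
    ¬ Independent k K io ξ T (fun i => Y (fun j => io (s j)) (σ i).1 (σ i).2.1 (σ i).2.2)}

/-- the powers of `2 π i` are independent over the algebraic numbers -/
theorem tpi_indep {k : ℕ} (K : Type) [Field K] [NumberField K] (io : K →+* ℂ) (c : Fin k → K)
    (h : ∑ a, io (c a) * tpi ^ (a : ℕ) = 0) : ∀ a, c a = 0 := by
  classical
  let p : Polynomial K := ∑ a : Fin k, Polynomial.monomial (a : ℕ) (c a)
  have hp : Polynomial.eval₂ io tpi p = 0 := by
    rw [Polynomial.eval₂_finsetSum]
    rw [← h]
    refine Finset.sum_congr rfl fun a _ => ?_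
    rw [Polynomial.eval₂_monomial]
  have htr : Transcendental ℚ tpi := by
    intro h1
    have h2 : IsAlgebraic ℚ (tpi ^ 2) := h1.pow 2
    have h3 : tpi ^ 2 = algebraMap ℚ ℂ (-4) * (Real.pi : ℂ) ^ 2 := by
      unfold tpi
      rw [mul_pow, mul_pow, Complex.I_sq]
      norm_num
    have h4 : (Real.pi : ℂ) ^ 2 = algebraMap ℚ ℂ (-4)⁻¹ * tpi ^ 2 := by
      rw [h3, ← mul_assoc, ← map_mul]
      norm_num
    have h5 : IsAlgebraic ℚ ((Real.pi : ℂ) ^ 2) := by
      rw [h4]
      exact (isAlgebraic_algebraMap _).mul h2
    exact Pool.Agent.H340R2.LW.transcendental_pi_complex (h5.of_pow two_pos)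
  have hp0 : p = 0 := by
    by_contra hne
    apply htr
    let _ : Algebra K ℂ := io.toAlgebra
    have h6 : IsAlgebraic K tpi := ⟨p, hne, hp⟩
    have : IsScalarTower ℚ K ℂ := IsScalarTower.of_algebraMap_eq fun q => by
      rw [eq_ratCast]
      exact (map_ratCast (algebraMap K ℂ) q).symm.trans (by rw [eq_ratCast])
    exact h6.restrictScalars ℚ
  intro a
  have h7 : p.coeff (a : ℕ) = c a := by
    rw [Polynomial.finsetSum_coeff, Finset.sum_eq_single a]
    · rw [Polynomial.coeff_monomial, if_pos rfl]
    · intro b _ hb
      rw [Polynomial.coeff_monomial, if_neg (fun h8 => hb (Fin.ext h8))]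
    · intro h8
      exact absurd (Finset.mem_univ a) h8
  rw [← h7, hp0, Polynomial.coeff_zero]

/-- Let `U` be a connected open subset of `ℂ ^ X`, and let `Y j` be square matrices of analytic functions on `U`,
invertible at every point. `IsMon U Y g` says that some analytic continuation of `Y` along a chain of connected sets which
returns to `U` is `Y g`, and `DimGe S r` that `r` of the coordinates satisfy no polynomial relation on `S`. If the Zariski
closure of the monodromy `{g | IsMon U Y g}` has dimension at least `r` then there are `r` different places `σ` for the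
entries of the matrices and `ω → ∞` such that for all large `T`, all number fields `K` of degree at most `ω T`, all
embeddings and all complex numbers `ξ a`, `a < ω T`: the exceptional points lie on at most `T ^ (1 / ω T)` hypersurfaces
of degree at most `T ^ (1 / ω T)`, and there are at most `T ^ (1 / ω T) * N ^ (|X| - 1)` of them, `N` being the number of
elements of `K` of height at most `T`. -/
theorem result {X κ : Type} [Fintype X] [DecidableEq X] [Nonempty X] [Fintype κ] (n : κ → ℕ) (U : Set (X → ℂ))
    (hU : IsPreconnected U) (hUo : IsOpen U) (hne : U.Nonempty) (Y : (X → ℂ) → MT n)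
    (hY : ∀ j a b, AnalyticOnNhd ℂ (fun x => Y x j a b) U) (hdet : ∀ x ∈ U, ∀ j, (Y x j).det ≠ 0) (r : ℕ)
    (hr : DimGe {g | IsMon U Y g} r) :
    ∃ σ : Fin r → Ix n, Function.Injective σ ∧
      ∃ (ω : ℝ → ℕ) (T₀ : ℝ), Tendsto ω atTop atTop ∧ Monotone ω ∧ ∀ T, T₀ ≤ T → 0 < ω T ∧
        ∀ (K : Type) [Field K] [NumberField K], Module.finrank ℚ K ≤ ω T → ∀ (io : K →+* ℂ) (ξ : Fin (ω T) → ℂ),
          Y124.Cov ⌊T ^ ((ω T : ℝ)⁻¹)⌋₊ ⌊T ^ ((ω T : ℝ)⁻¹)⌋₊
            ((fun (s : X → K) j => io (s j)) '' Exceptional U Y σ (ω T) K io ξ T) ∧
          (Exceptional U Y σ (ω T) K io ξ T).Finite ∧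
          ((Exceptional U Y σ (ω T) K io ξ T).ncard : ℝ) ≤
            T ^ ((ω T : ℝ)⁻¹) * ({x : K | Y120.HtLe K T x}.ncard : ℝ) ^ (Fintype.card X - 1) := by
  classical
  obtain ⟨σ, hσ⟩ := indep_of_mon hU hUo hne hY hdet hr
  refine ⟨σ, ?_, ?_⟩
  · intro i i' hii
    by_contra hne'
    have h1 := hσ (MvPolynomial.X i - MvPolynomial.X i') (fun x _ => by
      rw [Pool.Agent.Y890.MV.evM, MvPolynomial.eval₂_sub, MvPolynomial.eval₂_X, MvPolynomial.eval₂_X, hii, sub_self])
    exact hne' (MvPolynomial.X_injective (sub_eq_zero.1 h1))
  obtain ⟨ω, T₀, h1, h2, h3⟩ := Pool.Agent.Q311.MV.main hU hUo hne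
    (f := fun i x => Y x (σ i).1 (σ i).2.1 (σ i).2.2) (fun i => hY _ _ _) hσ (fun _ a => tpi ^ (a : ℕ))
  refine ⟨ω, T₀, h1, h2, fun T hT => ⟨(h3 T hT).1, fun K _ _ hK io ξ => ?_⟩⟩
  obtain ⟨h4, h5, h6⟩ := (h3 T hT).2 K hK io ξ
  have hsub : Exceptional U Y σ (ω T) K io ξ T ⊆
      {s : X → K | (∀ j, Y120.HtLe K T (s j)) ∧ (fun j => io (s j)) ∈ InnerM U (ω T) ∧
            ¬ (Free (ω T) K io ξ T (fun i => Y (fun j => io (s j)) (σ i).1 (σ i).2.1 (σ i).2.2) ∧
              Free (ω T) K io (fun a => tpi ^ (a : ℕ)) T
                (fun i => Y (fun j => io (s j)) (σ i).1 (σ i).2.1 (σ i).2.2))} := by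
    rintro s ⟨hs1, hs2, hs3⟩
    refine ⟨hs1, hs2, fun hf => hs3 fun c hc => ⟨fun hv => hf.1 c hc hv, fun hv => ?_⟩⟩
    intro l a
    have h7 := hf.2 c hc hv l
    have h8 := tpi_indep K io (fun a => (c l a : K)) h7 a
    exact_mod_cast h8
  exact ⟨h4.mono le_rfl le_rfl (Set.image_mono hsub), h5.subset hsub,
    le_trans (by exact_mod_cast Set.ncard_le_ncard hsub h5) h6⟩

end Pool.Agent.Results.MP_57341d_ag.MonodromyDimension
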