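import Pool.Agent.Q67.TB.FinalO

/-!
# MP_57341d_ag: one Hodge class on the fourth power and the transcendence degree of the periods
-/

universe u

namespace Pool.Agent.Results.MP_57341d_ag.OneHodgeClass

open Pool.Agent.H914
open Pool.Agent.Q67.TP.S Pool.Agent.Q67.TB.O

/-- Let `S` be a theory consisting of a Hodge theory and of the algebraic de Rham cohomology over
the field of the algebraic numbers, let `u` be a polarisation of the cohomology of `X` and let
`π H(X)` be a direct summand of degree `i` which generates `H(X)`, both given by classes which are
Hodge classes and de Rham-Betti classes. There is exactly one Casimir class on `X^4`; it is a Hodge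
class of codimension `2 i`, and it decides whether all Hodge classes on all powers of `X` are de
Rham-Betti classes, and with them the upper bound for the transcendence degree of the periods. -/
theorem result {k : Type u} [Field k] {𝒱 : VarClass k} {ops : CycleOps 𝒱} (S : Theory ops)
    (X : 𝒱.Obj) [Nontrivial (RH S.T X)] (u π : ROp S.T X) (i : ℕ)
    (hu : PolarisedBy (meet (hodge S.T) (drb S)) X u)
    (hπ : Generating (meet (hodge S.T) (drb S)) X u π i) :
    ∃ c : RH S.T (pow4 X), OneClass S X u π i c :=
  one_class S X u π i hu hπ

end Pool.Agent.Results.MP_57341d_ag.OneHodgeClass
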