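import Pool.Agent.Q67.TP.RFinal

/-!
# MP_57341d_ag: the fourth power and the de Rham-Betti classes, reductive case
-/

set_option autoImplicit false

open CategoryTheory AlgebraicGeometry

universe u

namespace Pool.Agent.Results.MP_57341d_ag.ReductiveDeRhamBetti

open Pool.Agent.H914
open Pool.Agent.Y133.Half (pw)
open Pool.Agent.Q67.TP.S

/-- Let `S` be a theory consisting of a Hodge theory (a Weil cohomology theory with rational
coefficients with a Hodge decomposition of its cohomology with complex coefficients) and of the
algebraic de Rham cohomology over the field of the algebraic numbers, a graded subspace of the
cohomology with complex coefficients which is stable under products and pull-backs and contains the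
classes `(2 π i) ^ j cl(z)`. Let `X` be such that a polarisation of the cohomology of `X` is given
by classes which are both Hodge classes and de Rham-Betti classes (this is always the case). Let
`L(R)` be the Lie algebra of the operators on the cohomology of `X` which kill (as derivations) the
classes in `R` on all powers of `X`. Suppose that `L(dRB)` acts semisimply on the cohomology of
`X × X`: this is the case if the de Rham-Betti group of `X` is reductive, for example if `X` is an
abelian variety (by the analytic subgroup theorem). Then

* all de Rham-Betti classes on all powers of `X` are Hodge classes if and only if the operators
  which kill the classes which are both Hodge and de Rham-Betti classes on all powers kill the de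
  Rham-Betti classes on `X^4` and those of them which are in the centre of the algebra of the
  operators given by de Rham-Betti classes kill the de Rham-Betti classes on all powers;
* all de Rham-Betti classes on all powers of `X` are Hodge classes if those on `X^4` are and there
  is no nonzero skew-symmetric operator in the centre of the algebra of the operators given by
  classes of both kinds;
* if the Hodge classes on `X^4` are the de Rham-Betti classes on `X^4` and there is no nonzero
  skew-symmetric operator in this centre, then the Hodge classes are the de Rham-Betti classes on
  all powers of `X`, the Lie algebras `L(Hodge)` and `L(dRB)` are equal and the transcendence degree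
  of the field of the periods of `X` is at most `dim L(Hodge) + 1` (the dimension of the
  Mumford-Tate group of `X`, if `X` is of positive dimension). -/
theorem result {k : Type u} [Field k] {𝒱 : VarClass k} {ops : CycleOps 𝒱} (S : Theory ops)
    (X : 𝒱.Obj) [Nontrivial (RH S.T X)] (u : ROp S.T X)
    (hu : PolarisedBy (meet (hodge S.T) (drb S)) X u) (hs : ActsSemisimply (drb S) X) :
    Fourth (drb S) (hodge S.T) X ∧
      (hodge S.T (pw X 3) = drb S (pw X 3) → NoCentralSkew (meet (hodge S.T) (drb S)) X →
        (∀ n, hodge S.T (pw X n) = drb S (pw X n)) ∧ lie (hodge S.T) X = lie (drb S) X ∧
          trdegOf (periods S X) ≤ (lieDim (hodge S.T) X + 1 : ℕ)) :=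
  semisimple_periods S X u hu hs

end Pool.Agent.Results.MP_57341d_ag.ReductiveDeRhamBetti
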